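import Mathlib

/-!
# Bounds for resultants in terms of Mahler measures
-/

set_option autoImplicit false

namespace Pool.Agent.H446.AP

open Matrix Polynomial Finset

/-- The roots of a complex polynomial as a vector. -/
lemma exists_roots (f : ℂ[X]) : ∃ v : Fin f.natDegree → ℂ, f.roots = univ.val.map v ∧
    f = C f.leadingCoeff * ∏ i, (X - C (v i)) := by
  have hcard : f.roots.toList.length = f.natDegree := by
    rw [Multiset.length_toList]
    exact (IsAlgClosed.splits f).natDegree_eq_card_roots.symm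
  let v : Fin f.natDegree → ℂ := fun i => f.roots.toList.get (Fin.cast hcard.symm i)
  have hv : f.roots = univ.val.map v := by
    rw [Fin.univ_val_map]
    conv_lhs => rw [← Multiset.coe_toList f.roots]
    congr 1
    refine List.ext_get (by simp [hcard]) ?_
    intro n h1 h2
    simp [v]
  refine ⟨v, hv, ?_⟩
  have h1 := (IsAlgClosed.splits f).eq_prod_roots
  conv_lhs => rw [h1]
  rw [hv, Multiset.map_map]
  rfl

lemma mahler_eq (f : ℂ[X]) {v : Fin f.natDegree → ℂ} (hv : f.roots = univ.val.map v) :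
    f.mahlerMeasure = ‖f.leadingCoeff‖ * ∏ i, max 1 ‖v i‖ := by
  rw [mahlerMeasure_eq_leadingCoeff_mul_prod_roots, hv, Multiset.map_map]
  rfl

lemma norm_sub_le_max (a b : ℂ) : ‖a - b‖ ≤ 2 * (max 1 ‖a‖ * max 1 ‖b‖) := by
  have h1 : ‖a‖ ≤ max 1 ‖a‖ * max 1 ‖b‖ := by
    calc ‖a‖ ≤ max 1 ‖a‖ := le_max_right _ _
      _ = max 1 ‖a‖ * 1 := (mul_one _).symm
      _ ≤ max 1 ‖a‖ * max 1 ‖b‖ := by gcongr; exact le_max_left _ _
  have h2 : ‖b‖ ≤ max 1 ‖a‖ * max 1 ‖b‖ := by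
    calc ‖b‖ ≤ max 1 ‖b‖ := le_max_right _ _
      _ = 1 * max 1 ‖b‖ := (one_mul _).symm
      _ ≤ max 1 ‖a‖ * max 1 ‖b‖ := by gcongr; exact le_max_left _ _
  have h3 := norm_sub_le a b
  linarith

/-- `|f(z)| ≤ 2 ^ n max(1, |z|) ^ n M(f)`. -/
lemma norm_eval_le (f : ℂ[X]) (z : ℂ) :
    ‖f.eval z‖ ≤ 2 ^ f.natDegree * (max 1 ‖z‖) ^ f.natDegree * f.mahlerMeasure := by
  obtain ⟨v, hv, hf⟩ := exists_roots f
  rw [mahler_eq f hv]
  have h1 : f.eval z = f.leadingCoeff * ∏ i, (z - v i) := by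
    conv_lhs => rw [hf]
    rw [eval_mul, eval_C, eval_prod]
    simp
  rw [h1, norm_mul, norm_prod]
  have h2 : ∏ i, ‖z - v i‖ ≤ ∏ i : Fin f.natDegree, (2 * (max 1 ‖z‖ * max 1 ‖v i‖)) :=
    Finset.prod_le_prod (fun _ _ => norm_nonneg _) fun i _ => norm_sub_le_max _ _
  rw [Finset.prod_mul_distrib, Finset.prod_mul_distrib, Finset.prod_const, Finset.prod_const,
    Finset.card_univ, Fintype.card_fin] at h2
  calc ‖f.leadingCoeff‖ * ∏ i, ‖z - v i‖
      ≤ ‖f.leadingCoeff‖ * (2 ^ f.natDegree * ((max 1 ‖z‖) ^ f.natDegree * ∏ i, max 1 ‖v i‖)) := by gcongr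
    _ = _ := by ring

/-- The resultant in terms of Mahler measures. -/
lemma norm_resultant_le (f g : ℂ[X]) :
    ‖resultant f g f.natDegree g.natDegree‖ ≤
      2 ^ (f.natDegree * g.natDegree) * f.mahlerMeasure ^ g.natDegree * g.mahlerMeasure ^ f.natDegree := by
  obtain ⟨v, hv, hf⟩ := exists_roots f
  rw [resultant_eq_prod_eval f g _ le_rfl (IsAlgClosed.splits f), hv, Multiset.map_map]
  have h0 : (Multiset.map ((fun x => eval x g) ∘ v) univ.val).prod = ∏ i, g.eval (v i) := rfl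
  rw [h0, norm_mul, norm_pow, norm_prod]
  have h2 : ∏ i, ‖g.eval (v i)‖ ≤
      ∏ i : Fin f.natDegree, (2 ^ g.natDegree * (max 1 ‖v i‖) ^ g.natDegree * g.mahlerMeasure) :=
    Finset.prod_le_prod (fun _ _ => norm_nonneg _) fun i _ => norm_eval_le _ _
  rw [Finset.prod_mul_distrib, Finset.prod_mul_distrib, Finset.prod_const, Finset.prod_const,
    Finset.card_univ, Fintype.card_fin, Finset.prod_pow] at h2
  calc ‖f.leadingCoeff‖ ^ g.natDegree * ∏ i, ‖g.eval (v i)‖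
      ≤ ‖f.leadingCoeff‖ ^ g.natDegree * ((2 ^ g.natDegree) ^ f.natDegree *
          (∏ i, max 1 ‖v i‖) ^ g.natDegree * g.mahlerMeasure ^ f.natDegree) := by gcongr
    _ = 2 ^ (f.natDegree * g.natDegree) * (‖f.leadingCoeff‖ * ∏ i, max 1 ‖v i‖) ^ g.natDegree *
          g.mahlerMeasure ^ f.natDegree := by
        rw [mul_pow, ← pow_mul]
        ring
    _ = _ := by rw [mahler_eq f hv]

/-- The product of the differences of `D` complex numbers. -/
lemma prod_sub_eq {D : ℕ} (v : Fin D → ℂ) :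
    ∏ i, ∏ j ∈ univ.erase i, ‖v i - v j‖ = ‖(vandermonde v).det‖ ^ 2 := by
  rw [det_vandermonde, norm_prod, sq]
  have h1 : ∀ i : Fin D, ∏ j ∈ univ.erase i, ‖v i - v j‖ =
      (∏ j ∈ Ioi i, ‖v i - v j‖) * ∏ j ∈ Iio i, ‖v i - v j‖ := by
    intro i
    rw [← Finset.prod_union]
    · refine Finset.prod_congr ?_ fun _ _ => rfl
      ext j
      simp only [mem_erase, mem_univ, and_true, mem_union, mem_Ioi, mem_Iio]
      exact ⟨fun h => (lt_or_gt_of_ne h).symm, fun h => h.elim (fun h => h.ne') fun h => h.ne⟩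
    · rw [Finset.disjoint_left]
      intro j hj hj'
      rw [mem_Ioi] at hj
      rw [mem_Iio] at hj'
      exact absurd (hj.trans hj') (lt_irrefl _)
  rw [Finset.prod_congr rfl fun i _ => h1 i, Finset.prod_mul_distrib]
  have h2 : ∏ i : Fin D, ∏ j ∈ Iio i, ‖v i - v j‖ = ∏ j : Fin D, ∏ i ∈ Ioi j, ‖v i - v j‖ := by
    refine Finset.prod_comm' ?_
    intro i j
    simp
  rw [h2]
  simp only [norm_prod]
  congr 1
  refine Finset.prod_congr rfl fun i _ => Finset.prod_congr rfl fun j _ => ?_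
  rw [norm_sub_rev]

lemma norm_det_vandermonde_le {D : ℕ} (v : Fin D → ℂ) :
    ‖(vandermonde v).det‖ ≤ D.factorial * (∏ i, max 1 ‖v i‖) ^ (D - 1) := by
  rw [det_apply']
  refine (norm_sum_le _ _).trans ?_
  have h1 : ∀ σ ∈ (univ : Finset (Equiv.Perm (Fin D))),
      ‖(((Equiv.Perm.sign σ : ℤˣ) : ℤ) : ℂ) * ∏ i, vandermonde v (σ i) i‖ ≤ (∏ i, max 1 ‖v i‖) ^ (D - 1) := by
    intro σ _
    rw [norm_mul]
    have h2 : ‖(((Equiv.Perm.sign σ : ℤˣ) : ℤ) : ℂ)‖ = 1 := by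
      rcases Int.units_eq_one_or (Equiv.Perm.sign σ) with h | h <;> simp [h]
    rw [h2, one_mul, norm_prod]
    calc ∏ i, ‖vandermonde v (σ i) i‖ ≤ ∏ i : Fin D, (max 1 ‖v (σ i)‖) ^ (D - 1) := by
          refine Finset.prod_le_prod (fun _ _ => norm_nonneg _) fun i _ => ?_
          rw [vandermonde_apply, norm_pow]
          calc ‖v (σ i)‖ ^ (i : ℕ) ≤ (max 1 ‖v (σ i)‖) ^ (i : ℕ) := by
                gcongr
                exact le_max_right _ _
            _ ≤ (max 1 ‖v (σ i)‖) ^ (D - 1) :=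
                pow_le_pow_right₀ (le_max_left _ _) (by have := i.2; omega)
      _ = (∏ i : Fin D, max 1 ‖v (σ i)‖) ^ (D - 1) := Finset.prod_pow _ _ _
      _ = (∏ i, max 1 ‖v i‖) ^ (D - 1) := by
          rw [Equiv.prod_comp σ fun i => max 1 ‖v i‖]
  refine (Finset.sum_le_card_nsmul _ _ _ h1).trans ?_
  rw [card_univ, Fintype.card_perm, Fintype.card_fin, nsmul_eq_mul]

lemma bound_aux {a m V F : ℝ} {D : ℕ} (hD : 0 < D) (ha0 : 0 ≤ a) (hm1 : 1 ≤ m) (hV : 0 ≤ V)
    (h2 : V ≤ F * m ^ (D - 1)) : a ^ (D - 1) * (a ^ D * V ^ 2) ≤ F ^ 2 * (a * m) ^ (2 * D - 1) := by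
  obtain ⟨k, rfl⟩ : ∃ k, D = k + 1 := ⟨D - 1, by omega⟩
  have e1 : k + 1 - 1 = k := by omega
  have e2 : 2 * (k + 1) - 1 = 2 * k + 1 := by omega
  rw [e1] at h2 ⊢
  rw [e2]
  calc a ^ k * (a ^ (k + 1) * V ^ 2)
      ≤ a ^ k * (a ^ (k + 1) * (F * m ^ k) ^ 2) := by gcongr
    _ = F ^ 2 * (a * (a * m) ^ (2 * k)) := by ring
    _ ≤ F ^ 2 * ((a * m) * (a * m) ^ (2 * k)) := by
        gcongr
        nlinarith
    _ = _ := by ring

/-- The resultant of a polynomial and its derivative. -/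
lemma norm_resultant_deriv_le (f : ℂ[X]) (hf0 : 0 < f.natDegree) :
    ‖resultant f (derivative f) f.natDegree (f.natDegree - 1)‖ ≤
      (f.natDegree.factorial : ℝ) ^ 2 * f.mahlerMeasure ^ (2 * f.natDegree - 1) := by
  obtain ⟨v, hv, hf⟩ := exists_roots f
  rw [resultant_eq_prod_eval f _ _ (natDegree_derivative_le f) (IsAlgClosed.splits f), hv, Multiset.map_map]
  have h0 : (Multiset.map ((fun x => eval x (derivative f)) ∘ v) univ.val).prod =
      ∏ i, (derivative f).eval (v i) := rfl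
  have h1 : ∀ i, (derivative f).eval (v i) = f.leadingCoeff * ∏ j ∈ univ.erase i, (v i - v j) := by
    intro i
    conv_lhs => rw [hf]
    rw [derivative_C_mul, eval_mul, eval_C, derivative_prod_finset, eval_finsetSum]
    congr 1
    rw [Finset.sum_eq_single i]
    · rw [eval_mul, eval_prod]
      simp
    · intro j _ hji
      rw [eval_mul, eval_prod]
      have : ∏ k ∈ univ.erase j, eval (v i) (X - C (v k)) = 0 :=
        Finset.prod_eq_zero (mem_erase.2 ⟨hji.symm, mem_univ i⟩) (by simp)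
      rw [this, zero_mul]
    · intro h
      exact absurd (mem_univ i) h
  rw [h0, norm_mul, norm_pow, norm_prod]
  simp only [h1, norm_mul, norm_prod]
  rw [Finset.prod_mul_distrib, Finset.prod_const, card_univ, Fintype.card_fin, prod_sub_eq]
  have hm1 : 1 ≤ ∏ i, max 1 ‖v i‖ := by
    calc (1 : ℝ) = ∏ _i : Fin f.natDegree, (1 : ℝ) := by simp
      _ ≤ _ := Finset.prod_le_prod (fun _ _ => zero_le_one) fun i _ => le_max_left _ _
  rw [mahler_eq f hv]
  exact bound_aux hf0 (norm_nonneg _) hm1 (norm_nonneg _) (norm_det_vandermonde_le v)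

end Pool.Agent.H446.AP
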