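import Pool.Agent.H446.AP.Res
import Pool.Agent.H446.AP.Arch

/-!
# Resultants of irreducible integral polynomials
-/

set_option autoImplicit false

namespace Pool.Agent.H446.AP

open Polynomial Finset

/-- The Mahler measure of an integral polynomial. -/
noncomputable def mm (P : ℤ[X]) : ℝ := (P.map (Int.castRingHom ℂ)).mahlerMeasure

lemma one_le_mm {P : ℤ[X]} (hP : P ≠ 0) : 1 ≤ mm P := one_le_mahlerMeasure_of_ne_zero hP

/-- `P` is the minimal polynomial over the integers of an algebraic number. -/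
def Orb (P : ℤ[X]) : Prop := Irreducible P ∧ 0 < P.natDegree ∧ 0 < P.leadingCoeff

lemma Orb.ne_zero {P : ℤ[X]} (h : Orb P) : P ≠ 0 := h.1.ne_zero

lemma Orb.primitive {P : ℤ[X]} (h : Orb P) : P.IsPrimitive := h.1.isPrimitive h.2.1.ne'

/-- The reduction of a primitive polynomial is not zero. -/
lemma map_ne_zero_of_primitive {P : ℤ[X]} (h : P.IsPrimitive) (p : ℕ) [hp : Fact p.Prime] :
    P.map (Int.castRingHom (ZMod p)) ≠ 0 := by
  intro h0
  have h1 : C (p : ℤ) ∣ P := by
    rw [C_dvd_iff_dvd_coeff]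
    intro i
    have h2 := congrArg (fun q => q.coeff i) h0
    simp only [coeff_map, eq_intCast, coeff_zero] at h2
    exact (ZMod.intCast_zmod_eq_zero_iff_dvd _ _).1 h2
  have h2 := isPrimitive_iff_isUnit_of_C_dvd.1 h (p : ℤ) h1
  rw [Int.isUnit_iff_natAbs_eq, Int.natAbs_natCast] at h2
  exact hp.out.one_lt.ne' h2

/-- Different orbits have a nonzero resultant. -/
lemma resultant_ne_zero_of_ne {P Q : ℤ[X]} (hP : Orb P) (hQ : Orb Q) (hne : P ≠ Q) :
    resultant P Q P.natDegree Q.natDegree ≠ 0 := by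
  have hiP := (IsPrimitive.Int.irreducible_iff_irreducible_map_cast hP.primitive).1 hP.1
  have hco : IsCoprime (P.map (Int.castRingHom ℚ)) (Q.map (Int.castRingHom ℚ)) := by
    rw [hiP.coprime_iff_not_dvd]
    intro hd
    have h1 := (IsPrimitive.Int.dvd_iff_map_cast_dvd_map_cast P Q hP.primitive).2 hd
    have h2 := hP.1.associated_of_dvd hQ.1 h1
    obtain ⟨u, hu⟩ := h2
    obtain ⟨a, ha, hau⟩ := Polynomial.isUnit_iff.1 u.isUnit
    rw [← hau] at hu
    rcases Int.isUnit_iff.1 ha with rfl | rfl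
    · apply hne
      rw [← hu]
      simp
    · have h3 := hQ.2.2
      rw [← hu] at h3
      have h4 := hP.2.2
      simp at h3
      omega
  have h1 := resultant_ne_zero _ _ hco
  rw [natDegree_map_eq_of_injective (RingHom.injective_int _),
    natDegree_map_eq_of_injective (RingHom.injective_int _), resultant_map_map] at h1
  intro h
  apply h1
  rw [h, map_zero]

/-- An irreducible polynomial and its derivative have a nonzero resultant. -/
lemma resultant_deriv_ne_zero {P : ℤ[X]} (hP : Orb P) :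
    resultant P (derivative P) P.natDegree (P.natDegree - 1) ≠ 0 := by
  have hiP := (IsPrimitive.Int.irreducible_iff_irreducible_map_cast hP.primitive).1 hP.1
  have hco : IsCoprime (P.map (Int.castRingHom ℚ)) ((derivative P).map (Int.castRingHom ℚ)) := by
    rw [← derivative_map]
    exact hiP.separable
  have h1 := resultant_ne_zero _ _ hco
  rw [natDegree_map_eq_of_injective (RingHom.injective_int _),
    natDegree_map_eq_of_injective (RingHom.injective_int _), resultant_map_map] at h1
  have h2 : (derivative P).natDegree = P.natDegree - 1 := by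
    have h3 := natDegree_derivative_le P
    refine le_antisymm h3 (le_natDegree_of_ne_zero ?_)
    rw [coeff_derivative]
    have h4 : P.natDegree - 1 + 1 = P.natDegree := by
      have := hP.2.1
      omega
    rw [h4]
    have h5 := hP.2.2
    rw [leadingCoeff] at h5
    positivity
  rw [h2] at h1
  intro h
  apply h1
  rw [h, map_zero]

lemma mm_natDegree (P : ℤ[X]) : (P.map (Int.castRingHom ℂ)).natDegree = P.natDegree :=
  natDegree_map_eq_of_injective (RingHom.injective_int _) _

lemma abs_resultant_le (P Q : ℤ[X]) : |((resultant P Q P.natDegree Q.natDegree : ℤ) : ℝ)| ≤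
    2 ^ (P.natDegree * Q.natDegree) * mm P ^ Q.natDegree * mm Q ^ P.natDegree := by
  have h1 := norm_resultant_le (P.map (Int.castRingHom ℂ)) (Q.map (Int.castRingHom ℂ))
  rw [mm_natDegree, mm_natDegree, resultant_map_map] at h1
  have h2 : ‖(Int.castRingHom ℂ) (resultant P Q P.natDegree Q.natDegree)‖ =
      |((resultant P Q P.natDegree Q.natDegree : ℤ) : ℝ)| := by
    rw [eq_intCast, Complex.norm_intCast]
  rw [h2] at h1
  exact h1

lemma abs_resultant_deriv_le {P : ℤ[X]} (hP : 0 < P.natDegree) :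
    |((resultant P (derivative P) P.natDegree (P.natDegree - 1) : ℤ) : ℝ)| ≤
      (P.natDegree.factorial : ℝ) ^ 2 * mm P ^ (2 * P.natDegree - 1) := by
  have h1 := norm_resultant_deriv_le (P.map (Int.castRingHom ℂ)) (by rw [mm_natDegree]; exact hP)
  rw [mm_natDegree, derivative_map, resultant_map_map] at h1
  have h2 : ‖(Int.castRingHom ℂ) (resultant P (derivative P) P.natDegree (P.natDegree - 1))‖ =
      |((resultant P (derivative P) P.natDegree (P.natDegree - 1) : ℤ) : ℝ)| := by
    rw [eq_intCast, Complex.norm_intCast]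
  rw [h2] at h1
  exact h1

/-- Prime powers dividing a nonzero integer. -/
lemma sum_log_le (Q : Finset ℕ) (hQ : ∀ p ∈ Q, p.Prime) (r : ℕ → ℕ) (R : ℤ) (hR : R ≠ 0)
    (hr : ∀ p ∈ Q, (p : ℤ) ^ r p ∣ R) : ∑ p ∈ Q, Real.log p * r p ≤ Real.log |(R : ℝ)| := by
  have h1 : ∏ p ∈ Q, (p : ℤ) ^ r p ∣ R := by
    refine Finset.prod_dvd_of_coprime ?_ hr
    intro p hp q hq hpq
    refine IsCoprime.pow ?_
    rw [Nat.isCoprime_iff_coprime]
    exact (Nat.coprime_primes (hQ p hp) (hQ q hq)).2 hpq
  have h2 : ∑ p ∈ Q, Real.log p * r p = Real.log (∏ p ∈ Q, (p : ℝ) ^ r p) := by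
    rw [Real.log_prod]
    · refine Finset.sum_congr rfl fun p _ => ?_
      rw [Real.log_pow, mul_comm]
    · intro p hp
      have := (hQ p hp).pos
      positivity
  rw [h2]
  refine Real.log_le_log ?_ ?_
  · refine Finset.prod_pos fun p hp => ?_
    have := (hQ p hp).pos
    positivity
  · have h3 : |∏ p ∈ Q, (p : ℤ) ^ r p| ≤ |R| := by
      exact Int.le_of_dvd (abs_pos.2 hR) ((abs_dvd_abs _ _).2 h1)
    have h4 : (0 : ℤ) ≤ ∏ p ∈ Q, (p : ℤ) ^ r p := Finset.prod_nonneg fun p _ => by positivity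
    rw [abs_of_nonneg h4] at h3
    have h5 : ((∏ p ∈ Q, (p : ℤ) ^ r p : ℤ) : ℝ) ≤ ((|R| : ℤ) : ℝ) := Int.cast_le.2 h3
    push_cast at h5
    exact h5

end Pool.Agent.H446.AP
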