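import Pool.Agent.H446.AP.Mert

/-!
# The larger sieve for algebraic numbers
-/

set_option autoImplicit false

namespace Pool.Agent.H446.AP

open Polynomial Finset

/-- Properties of the residues. -/
abbrev Fam := ∀ p : ℕ, [Fact p.Prime] → AlgebraicClosure (ZMod p) → Prop

/-- Some reduction modulo `p` of the roots of `P` does not have the property. -/
def Bad (A : Fam) (P : ℤ[X]) (p : ℕ) : Prop :=
  ∃ _ : Fact p.Prime, ∃ z : AlgebraicClosure (ZMod p), aeval z P = 0 ∧ ¬ A p z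

/-- At most `α p` residues have the property. -/
def Cls (A : Fam) (α : ℝ) (N₀ : ℕ) : Prop :=
  ∀ (p : ℕ) [Fact p.Prime], N₀ < p → ∀ T : Finset (AlgebraicClosure (ZMod p)), (∀ z ∈ T, A p z) →
    (T.card : ℝ) ≤ α * p

/-- The resultant of `P` and its derivative. -/
noncomputable def rd (P : ℤ[X]) : ℤ := resultant P (derivative P) P.natDegree (P.natDegree - 1)

open Classical in
/-- The roots of the reduction. -/
noncomputable def rts (p : ℕ) [Fact p.Prime] (P : ℤ[X]) : Finset (AlgebraicClosure (ZMod p)) :=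
  (P.map (Int.castRingHom (AlgebraicClosure (ZMod p)))).roots.toFinset

lemma map_ne_zero' (p : ℕ) [Fact p.Prime] {P : ℤ[X]} (hP : Orb P) :
    P.map (Int.castRingHom (AlgebraicClosure (ZMod p))) ≠ 0 := by
  have h1 := map_ne_zero_of_primitive hP.primitive p
  have h2 : P.map (Int.castRingHom (AlgebraicClosure (ZMod p))) =
      (P.map (Int.castRingHom (ZMod p))).map (algebraMap (ZMod p) (AlgebraicClosure (ZMod p))) := by
    rw [Polynomial.map_map]
    congr 1
  rw [h2, Ne, Polynomial.map_eq_zero]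
  exact h1

lemma mem_rts {p : ℕ} [Fact p.Prime] {P : ℤ[X]} (hP : Orb P) {z : AlgebraicClosure (ZMod p)} :
    z ∈ rts p P ↔ aeval z P = 0 := by
  classical
  rw [rts, Multiset.mem_toFinset, mem_roots (map_ne_zero' p hP), IsRoot.def, eval_map, aeval_def]
  rw [show (Int.castRingHom (AlgebraicClosure (ZMod p))) = algebraMap ℤ _ from RingHom.ext_int _ _]

lemma card_rts_le {p : ℕ} [Fact p.Prime] (P : ℤ[X]) : (rts p P).card ≤ P.natDegree := by
  classical
  calc (rts p P).card ≤ _ := Multiset.toFinset_card_le _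
    _ ≤ _ := card_roots' _
    _ ≤ P.natDegree := natDegree_map_le

/-- The power of `p` in the resultant of `P` and its derivative. -/
lemma pow_dvd_rd {p : ℕ} [Fact p.Prime] {P : ℤ[X]} (hP : Orb P) :
    (p : ℤ) ^ (P.natDegree - (rts p P).card) ∣ rd P :=
  pow_dvd_resultant_deriv P (map_ne_zero_of_primitive hP.primitive p) (rts p P) fun _ hz => (mem_rts hP).2 hz

lemma card_rts {p : ℕ} [Fact p.Prime] {P : ℤ[X]} (hP : Orb P) (hd : ¬ (p : ℤ) ∣ rd P) :
    (rts p P).card = P.natDegree := by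
  refine le_antisymm (card_rts_le P) ?_
  by_contra h
  push Not at h
  apply hd
  refine dvd_trans (dvd_pow_self _ ?_) (pow_dvd_rd hP)
  omega

instance primesFact (i : Nat.Primes) : Fact (i : ℕ).Prime := ⟨i.2⟩

open Classical in
/-- **The larger sieve for algebraic numbers.** -/
theorem core {A : Fam} {α : ℝ} {N₀ : ℕ} (hα : 0 < α) (hA : Cls A α N₀) {c : ℝ}
    (hc : ∀ x : ℝ, 1 ≤ x → ∑ p ∈ pr x, Real.log p / p ≤ Real.log x + c) {ℓ x γ : ℝ} (hℓ : 0 ≤ ℓ) (hx : 1 ≤ x)
    (hγ : 0 ≤ γ) (S : Finset ℤ[X]) (hS : ∀ P ∈ S, Orb P ∧ Real.log (mm P) ≤ P.natDegree * ℓ)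
    (hgood : ∀ P ∈ S, γ ≤ ∑ p ∈ (pr x).filter (fun p => N₀ < p ∧ ¬ Bad A P p ∧ ¬ (p : ℤ) ∣ rd P), Real.log p / p) :
    (γ * S.card) ^ 2 ≤ α * (Real.log x + c) * ((S.card : ℝ) ^ 2 * (2 * ℓ + Real.log 2) + S.card * (2 * x)) := by
  have hl2 : 0 < Real.log 2 := Real.log_pos (by norm_num)
  let Q₀ : Finset ℕ := (pr x).filter fun p => N₀ < p
  have hQ₀ : ∀ p ∈ Q₀, p.Prime := fun p hp => ((mem_pr (by linarith)).1 (mem_filter.1 hp).1).1
  let Q : Finset Nat.Primes := Q₀.subtype Nat.Prime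
  have hsum : ∀ (f : ℕ → ℝ) (R : ℕ → Prop) [DecidablePred R],
      ∑ i ∈ Q.filter (fun i : Nat.Primes => R i), f i = ∑ p ∈ Q₀.filter R, f p := by
    intro f R _
    rw [Finset.sum_filter, Finset.sum_filter]
    exact Finset.sum_subtype_of_mem (fun p => if R p then f p else 0) hQ₀
  have hsum' : ∀ f : ℕ → ℝ, ∑ i ∈ Q, f i = ∑ p ∈ Q₀, f p := fun f => Finset.sum_subtype_of_mem f hQ₀
  have hQmem : ∀ i ∈ Q, (i : ℕ) ∈ Q₀ := fun i hi => Finset.mem_subtype.1 hi
  let T : Nat.Primes → Finset ℤ[X] := fun i => S.filter fun P => ¬ Bad A P i ∧ ¬ ((i : ℕ) : ℤ) ∣ rd P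
  let Z : ∀ i : Nat.Primes, ℤ[X] → Finset (AlgebraicClosure (ZMod (i : ℕ))) := fun i P => rts i P
  let G : ∀ i : Nat.Primes, Finset (AlgebraicClosure (ZMod (i : ℕ))) := fun i => (T i).biUnion (Z i)
  have key := sieve S Q (Γ := fun i : Nat.Primes => AlgebraicClosure (ZMod (i : ℕ))) T
    (fun i _ => filter_subset _ _) Z G (fun P => P.natDegree) (fun P hP => (hS P hP).1.2.1)
    (fun i _ P hP => card_rts (hS P (mem_filter.1 hP).1).1 (mem_filter.1 hP).2.2)
    (fun i _ P hP => Finset.subset_biUnion_of_mem (Z i) hP)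
    (fun i => Real.log (i : ℕ)) (fun i => ((i : ℕ) : ℝ)) (fun i _ => logp_nonneg _)
    (fun i _ => by exact_mod_cast i.2.pos) hα (B := 2 * ℓ + Real.log 2) (by linarith) hγ ?_ ?_ ?_
  · refine key.trans ?_
    have h1 : ∑ i ∈ Q, Real.log (i : ℕ) / ((i : ℕ) : ℝ) ≤ Real.log x + c := by
      rw [hsum' fun p => Real.log p / p]
      refine (Finset.sum_le_sum_of_subset_of_nonneg (filter_subset _ _) fun p _ _ =>
        div_nonneg (logp_nonneg p) (Nat.cast_nonneg p)).trans (hc x hx)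
    have h2 : ∑ i ∈ Q, Real.log (i : ℕ) ≤ 2 * x := by
      rw [hsum' fun p => Real.log p]
      refine (Finset.sum_le_sum_of_subset_of_nonneg (filter_subset _ _) fun p _ _ =>
        logp_nonneg p).trans (theta_le (by linarith))
    have h3 : 0 ≤ ∑ i ∈ Q, Real.log (i : ℕ) := Finset.sum_nonneg fun _ _ => logp_nonneg _
    have h4 : 0 ≤ ∑ i ∈ Q, Real.log (i : ℕ) / ((i : ℕ) : ℝ) := Finset.sum_nonneg fun _ _ =>
      div_nonneg (logp_nonneg _) (Nat.cast_nonneg _)
    have h5 : 0 ≤ Real.log x + c := h4.trans h1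
    gcongr
  · -- the number of residues
    intro i hi
    refine hA i (mem_filter.1 (hQmem i hi)).2 (G i) ?_
    intro z hz
    obtain ⟨P, hP, hzP⟩ := Finset.mem_biUnion.1 hz
    have hP' := mem_filter.1 hP
    by_contra hcon
    exact hP'.2.1 ⟨primesFact i, z, (mem_rts (hS P hP'.1).1).1 hzP, hcon⟩
  · -- pairs
    intro P hP P' hP' hne
    have hO := (hS P hP).1
    have hO' := (hS P' hP').1
    have h1 := log_resultant_le hO hO' hne (hS P hP).2 (hS P' hP').2
    let r : ℕ → ℕ := fun p => if h : p.Prime then (@rts p ⟨h⟩ P ∩ @rts p ⟨h⟩ P').card else 0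
    have h2 := sum_log_le Q₀ hQ₀ r _ (resultant_ne_zero_of_ne hO hO' hne) ?_
    · refine le_trans ?_ (h2.trans h1)
      have h3 : ∑ i ∈ Q with P ∈ T i ∧ P' ∈ T i, Real.log (i : ℕ) * ((Z i P ∩ Z i P').card : ℝ) ≤
          ∑ i ∈ Q, Real.log (i : ℕ) * ((Z i P ∩ Z i P').card : ℝ) :=
        Finset.sum_le_sum_of_subset_of_nonneg (filter_subset _ _) fun i _ _ =>
          mul_nonneg (logp_nonneg _) (Nat.cast_nonneg _)
      refine h3.trans (le_of_eq ?_)
      rw [← hsum' fun p => Real.log p * r p]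
      refine Finset.sum_congr rfl fun i _ => ?_
      simp only [r, dif_pos i.2, Z]
    · intro p hp
      have hpp := hQ₀ p hp
      simp only [r, dif_pos hpp]
      have : Fact p.Prime := ⟨hpp⟩
      refine pow_card_dvd_resultant P P' (Or.inl (map_ne_zero_of_primitive hO.primitive p)) _ ?_
      intro z hz
      rw [Finset.mem_inter] at hz
      exact ⟨(mem_rts hO).1 hz.1, (mem_rts hO').1 hz.2⟩
  · -- good primes
    intro P hP
    refine (hgood P hP).trans (le_of_eq ?_)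
    have h1 : ∑ i ∈ Q with P ∈ T i, Real.log (i : ℕ) / ((i : ℕ) : ℝ) =
        ∑ i ∈ Q.filter (fun i : Nat.Primes => ¬ Bad A P (i : ℕ) ∧ ¬ ((i : ℕ) : ℤ) ∣ rd P),
          Real.log (i : ℕ) / ((i : ℕ) : ℝ) := by
      refine Finset.sum_congr ?_ fun _ _ => rfl
      ext i
      simp only [T, mem_filter]
      exact ⟨fun h => ⟨h.1, h.2.2⟩, fun h => ⟨h.1, hP, h.2⟩⟩
    rw [h1, hsum (fun p => Real.log p / p) (fun p => ¬ Bad A P p ∧ ¬ (p : ℤ) ∣ rd P)]
    refine Finset.sum_congr ?_ fun _ _ => rfl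
    ext p
    simp only [Q₀, mem_filter]
    tauto

end Pool.Agent.H446.AP
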