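import Mathlib

/-!
# The determinant of an integral matrix is divisible by `p ^ r` if the corank modulo `p` is at least `r`
-/

set_option autoImplicit false

namespace Pool.Agent.H446.AP

open Matrix Polynomial

/-- If the rows of a set `S` of a matrix are zero modulo `p`, then `p ^ #S` divides the determinant. -/
lemma pow_dvd_det_of_rows {N : Type*} [Fintype N] [DecidableEq N] (p : ℤ) (A : Matrix N N ℤ)
    (S : Finset N) (hS : ∀ i ∈ S, ∀ j, p ∣ A i j) : p ^ S.card ∣ A.det := by
  classical
  rw [← Matrix.det_transpose, Matrix.det_apply']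
  refine Finset.dvd_sum fun σ _ => Dvd.dvd.mul_left ?_ _
  calc p ^ S.card = ∏ i ∈ S, p := by rw [Finset.prod_const]
    _ ∣ ∏ i ∈ S, A.transpose (σ i) i := Finset.prod_dvd_prod_of_dvd _ _ fun i hi => hS i hi _
    _ ∣ ∏ i, A.transpose (σ i) i := Finset.prod_dvd_prod_of_subset _ _ _ (Finset.subset_univ _)

/-- If there are `r` independent relations modulo `p` between the rows, then `p ^ r` divides the determinant. -/
lemma pow_dvd_det {N : Type*} [Fintype N] [DecidableEq N] {p : ℕ} [hp : Fact p.Prime] (A : Matrix N N ℤ)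
    {r : ℕ} (v : Fin r → N → ZMod p) (hv : LinearIndependent (ZMod p) v)
    (hvA : ∀ j, v j ᵥ* A.map (Int.castRingHom (ZMod p)) = 0) : (p : ℤ) ^ r ∣ A.det := by
  classical
  let b := Module.Basis.extend hv.linearIndepOn_id
  have hmem : ∀ j, v j ∈ hv.linearIndepOn_id.extend (Set.subset_univ (Set.range v)) := fun j =>
    Module.Basis.subset_extend _ (Set.mem_range_self j)
  have hfin : Finite (hv.linearIndepOn_id.extend (Set.subset_univ (Set.range v))) :=
    Module.Finite.finite_basis b
  have : Fintype (hv.linearIndepOn_id.extend (Set.subset_univ (Set.range v))) := Fintype.ofFinite _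
  have hcard : Fintype.card (hv.linearIndepOn_id.extend (Set.subset_univ (Set.range v))) = Fintype.card N := by
    have h1 := Module.finrank_eq_card_basis b
    rw [Module.finrank_fintype_fun_eq_card] at h1
    exact h1.symm
  let e := Fintype.equivOfCardEq hcard
  let b' := b.reindex e
  have hb' : ∀ j, b' (e ⟨v j, hmem j⟩) = v j := by
    intro j
    simp only [b', Module.Basis.reindex_apply, Equiv.symm_apply_apply, b]
    exact Module.Basis.extend_apply_self _ _
  let U : Matrix N N (ZMod p) := Matrix.of fun i => b' i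
  have hU : IsUnit U := by
    rw [← Matrix.linearIndependent_rows_iff_isUnit]
    exact b'.linearIndependent
  have hlift : ∃ U' : Matrix N N ℤ, U'.map (Int.castRingHom (ZMod p)) = U := by
    refine ⟨Matrix.of fun i j => ((U i j).val : ℤ), ?_⟩
    ext i j
    simp [Matrix.map_apply]
  obtain ⟨U', hU'⟩ := hlift
  have hdet : IsCoprime ((p : ℤ) ^ r) U'.det := by
    refine IsCoprime.pow_left ?_
    rw [Int.isCoprime_iff_gcd_eq_one]
    have hp1 : ¬ (p : ℤ) ∣ U'.det := by
      intro hd
      have h2 : ((U'.det : ℤ) : ZMod p) = 0 := (ZMod.intCast_zmod_eq_zero_iff_dvd _ _).2 hd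
      have h3 : ((U'.det : ℤ) : ZMod p) = U.det := by
        rw [← hU']
        exact RingHom.map_det (Int.castRingHom (ZMod p)) U'
      rw [h3] at h2
      have h4 := (Matrix.isUnit_iff_isUnit_det _).1 hU
      rw [h2] at h4
      exact not_isUnit_zero h4
    exact (Nat.Prime.coprime_iff_not_dvd hp.out (n := U'.det.natAbs)).2 (fun h => hp1 (Int.natCast_dvd.2 h))
  have hrows : (p : ℤ) ^ r ∣ (U' * A).det := by
    have h1 := pow_dvd_det_of_rows (p : ℤ) (U' * A)
      (Finset.univ.map ⟨fun j : Fin r => e ⟨v j, hmem j⟩, fun a b h =>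
        hv.injective (congrArg Subtype.val (e.injective h))⟩) ?_
    · simpa using h1
    · intro i hi k
      obtain ⟨j, _, rfl⟩ := Finset.mem_map.1 hi
      rw [← ZMod.intCast_zmod_eq_zero_iff_dvd]
      have h2 := congrFun (hvA j) k
      have h3 : (((U' * A) (e ⟨v j, hmem j⟩) k : ℤ) : ZMod p) =
          ((U' * A).map (Int.castRingHom (ZMod p))) (e ⟨v j, hmem j⟩) k := rfl
      show (((U' * A) (e ⟨v j, hmem j⟩) k : ℤ) : ZMod p) = 0
      rw [h3, Matrix.map_mul, hU']
      have h4 : (U * A.map (Int.castRingHom (ZMod p))) (e ⟨v j, hmem j⟩) k =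
          (v j ᵥ* A.map (Int.castRingHom (ZMod p))) k := by
        simp only [Matrix.mul_apply, Matrix.vecMul, dotProduct]
        refine Finset.sum_congr rfl fun l _ => ?_
        simp only [U, Matrix.of_apply, hb']
      rw [h4, h2]
      rfl
  rw [Matrix.det_mul] at hrows
  exact hdet.dvd_of_dvd_mul_left hrows

end Pool.Agent.H446.AP
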