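import Pool.Agent.H446.AP.Arith
import Pool.Agent.H446.AP.Comb
import Pool.Graph.R_seed8.Helper923.HMertens

/-!
# Sums over primes
-/

set_option autoImplicit false

namespace Pool.Agent.H446.AP

open Polynomial Finset

/-- The primes up to `x`. -/
noncomputable def pr (x : ℝ) : Finset ℕ := (Icc 1 ⌊x⌋₊).filter Nat.Prime

lemma mem_pr {x : ℝ} (hx : 0 ≤ x) {p : ℕ} : p ∈ pr x ↔ p.Prime ∧ (p : ℝ) ≤ x := by
  rw [pr, mem_filter, mem_Icc, Nat.le_floor_iff hx]
  exact ⟨fun h => ⟨h.2, h.1.2⟩, fun h => ⟨⟨h.1.one_lt.le, h.2⟩, h.1⟩⟩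

lemma logp_nonneg (p : ℕ) : 0 ≤ Real.log p := Real.log_natCast_nonneg _

lemma mertens : ∃ c : ℝ, 0 ≤ c ∧ ∀ x : ℝ, 1 ≤ x →
    Real.log x - c ≤ ∑ p ∈ pr x, Real.log p / p ∧ ∑ p ∈ pr x, Real.log p / p ≤ Real.log x + c := by
  obtain ⟨C, hC⟩ := Pool.Agent.Helper923.HMertens.mertens_log
  have hC0 : 0 ≤ C := (abs_nonneg _).trans (hC 1 le_rfl)
  have hl2 : 0 < Real.log 2 := Real.log_pos (by norm_num)
  refine ⟨C + Real.log 2, by linarith, fun x hx => ?_⟩
  have h1 : 1 ≤ ⌊x⌋₊ := Nat.floor_pos.2 hx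
  have h2 := abs_le.1 (hC ⌊x⌋₊ h1)
  have h3 : (1 : ℝ) ≤ ⌊x⌋₊ := by exact_mod_cast h1
  have h4 : (⌊x⌋₊ : ℝ) ≤ x := Nat.floor_le (by linarith)
  have h5 : x ≤ 2 * ⌊x⌋₊ := by
    have := Nat.lt_floor_add_one x
    linarith
  have h6 : Real.log ⌊x⌋₊ ≤ Real.log x := Real.log_le_log (by linarith) h4
  have h7 : Real.log x ≤ Real.log 2 + Real.log ⌊x⌋₊ := by
    rw [← Real.log_mul (by norm_num) (by linarith)]
    exact Real.log_le_log (by linarith) h5
  unfold pr
  constructor <;> linarith [h2.1, h2.2]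

lemma theta_le {x : ℝ} (hx : 0 ≤ x) : ∑ p ∈ pr x, Real.log p ≤ 2 * x := by
  have h := Pool.Agent.Helper923.HMertens.theta_le ⌊x⌋₊
  have h2 := Nat.floor_le hx
  exact h.trans (by linarith)

/-- The primes dividing an integer contribute little. -/
lemma ram_le {c : ℝ} (hc : ∀ x : ℝ, 1 ≤ x → ∑ p ∈ pr x, Real.log p / p ≤ Real.log x + c) {R : ℤ} (hR : R ≠ 0)
    {z : ℝ} (hz : 1 ≤ z) (hRz : Real.log |(R : ℝ)| ≤ z) (Q : Finset ℕ) (hQ : ∀ p ∈ Q, p.Prime ∧ (p : ℤ) ∣ R) :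
    ∑ p ∈ Q, Real.log p / p ≤ Real.log z + c + 1 := by
  classical
  rw [← Finset.sum_filter_add_sum_filter_not Q (fun p : ℕ => (p : ℝ) ≤ z)]
  have h1 : ∑ p ∈ Q.filter (fun p : ℕ => (p : ℝ) ≤ z), Real.log p / p ≤ ∑ p ∈ pr z, Real.log p / p := by
    refine Finset.sum_le_sum_of_subset_of_nonneg ?_ fun p _ _ => div_nonneg (logp_nonneg p) (Nat.cast_nonneg p)
    intro p hp
    rw [mem_filter] at hp
    exact (mem_pr (by linarith)).2 ⟨(hQ p hp.1).1, hp.2⟩
  have h2 : ∑ p ∈ Q.filter (fun p : ℕ => ¬ (p : ℝ) ≤ z), Real.log p / p ≤ 1 := by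
    have h3 := sum_log_le Q (fun p hp => (hQ p hp).1) (fun _ => 1) R hR (fun p hp => by
      rw [pow_one]
      exact (hQ p hp).2)
    have h4 : ∑ p ∈ Q.filter (fun p : ℕ => ¬ (p : ℝ) ≤ z), Real.log p / p ≤ (∑ p ∈ Q, Real.log p) / z := by
      rw [Finset.sum_div]
      refine (Finset.sum_le_sum (g := fun p : ℕ => Real.log p / z) ?_).trans
        (Finset.sum_le_sum_of_subset_of_nonneg (filter_subset _ _) fun p _ _ =>
          div_nonneg (logp_nonneg p) (by linarith))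
      intro p hp
      rw [mem_filter, not_le] at hp
      exact div_le_div_of_nonneg_left (logp_nonneg p) (by linarith) hp.2.le
    refine h4.trans ?_
    rw [div_le_one (by linarith)]
    simp only [Nat.cast_one, mul_one] at h3
    exact h3.trans hRz
  have h5 := hc z hz
  linarith

/-- An upper bound for the resultant of `P` and its derivative. -/
lemma log_resultant_deriv_le {P : ℤ[X]} (hP : Orb P) {ℓ : ℝ} (hℓ : Real.log (mm P) ≤ P.natDegree * ℓ) (hℓ0 : 0 ≤ ℓ) :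
    Real.log |((resultant P (derivative P) P.natDegree (P.natDegree - 1) : ℤ) : ℝ)| ≤
      2 * P.natDegree * Real.log P.natDegree + 2 * (P.natDegree : ℝ) ^ 2 * ℓ := by
  set D := P.natDegree with hD
  have hD1 : 1 ≤ D := hP.2.1
  have hD1' : (1 : ℝ) ≤ D := by exact_mod_cast hD1
  have h1 := abs_resultant_deriv_le hP.2.1
  rw [← hD] at h1
  have h0 : (0 : ℝ) < |((resultant P (derivative P) D (D - 1) : ℤ) : ℝ)| := by
    have := resultant_deriv_ne_zero hP
    rw [abs_pos]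
    exact_mod_cast this
  have hm := one_le_mm hP.ne_zero
  have h2 : Real.log |((resultant P (derivative P) D (D - 1) : ℤ) : ℝ)| ≤
      Real.log ((D.factorial : ℝ) ^ 2 * mm P ^ (2 * D - 1)) := Real.log_le_log h0 h1
  have hfac : (0 : ℝ) < D.factorial := by exact_mod_cast D.factorial_pos
  rw [Real.log_mul (by positivity) (by positivity), Real.log_pow, Real.log_pow] at h2
  have h3 : Real.log (D.factorial : ℝ) ≤ D * Real.log D := by
    rw [← Real.log_pow]
    refine Real.log_le_log hfac ?_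
    exact_mod_cast Nat.factorial_le_pow D
  have h4 : ((2 * D - 1 : ℕ) : ℝ) ≤ 2 * D := by
    have : 2 * D - 1 ≤ 2 * D := by omega
    exact_mod_cast this
  have h5 : 0 ≤ Real.log (mm P) := Real.log_nonneg hm
  have h6 : ((2 * D - 1 : ℕ) : ℝ) * Real.log (mm P) ≤ (2 * D) * (D * ℓ) := by
    have := Real.log_nonneg hD1'
    calc ((2 * D - 1 : ℕ) : ℝ) * Real.log (mm P) ≤ (2 * D) * Real.log (mm P) := by gcongr
      _ ≤ (2 * D) * (D * ℓ) := by gcongr
  push_cast at h2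
  nlinarith

/-- An upper bound for the resultant of two polynomials. -/
lemma log_resultant_le {P Q : ℤ[X]} (hP : Orb P) (hQ : Orb Q) (hne : P ≠ Q) {ℓ : ℝ}
    (hℓ : Real.log (mm P) ≤ P.natDegree * ℓ) (hℓ' : Real.log (mm Q) ≤ Q.natDegree * ℓ) :
    Real.log |((resultant P Q P.natDegree Q.natDegree : ℤ) : ℝ)| ≤
      P.natDegree * Q.natDegree * (2 * ℓ + Real.log 2) := by
  have h1 := abs_resultant_le P Q
  have h0 : (0 : ℝ) < |((resultant P Q P.natDegree Q.natDegree : ℤ) : ℝ)| := by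
    have := resultant_ne_zero_of_ne hP hQ hne
    rw [abs_pos]
    exact_mod_cast this
  have hm := one_le_mm hP.ne_zero
  have hm' := one_le_mm hQ.ne_zero
  have h2 := Real.log_le_log h0 h1
  rw [Real.log_mul (by positivity) (by positivity), Real.log_mul (by positivity) (by positivity), Real.log_pow,
    Real.log_pow, Real.log_pow] at h2
  push_cast at h2
  have h3 : (Q.natDegree : ℝ) * Real.log (mm P) ≤ Q.natDegree * (P.natDegree * ℓ) := by gcongr
  have h4 : (P.natDegree : ℝ) * Real.log (mm Q) ≤ P.natDegree * (Q.natDegree * ℓ) := by gcongr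
  nlinarith

end Pool.Agent.H446.AP
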