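import Pool.Agent.H446.AP.Core
import Pool.Graph.R_pool_sql_team_seeded_843ab51a.V11263.PCu.Sc

/-!
# Pencils of operators over the rational functions over a field of characteristic `p`
-/

set_option autoImplicit false

namespace Pool.Agent.H446.AP

open Polynomial Finset

variable {K : Type*} [Field K]

lemma D_algebraMap (D : Derivation K (RatFunc K) (RatFunc K)) (hD : D RatFunc.X = 1) (f : K[X]) :
    D (algebraMap K[X] (RatFunc K) f) = algebraMap K[X] (RatFunc K) (derivative f) := by
  have h1 : algebraMap K[X] (RatFunc K) f = aeval (RatFunc.X : RatFunc K) f := by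
    rw [← RatFunc.algebraMap_X, Polynomial.aeval_algebraMap_apply, Polynomial.aeval_X_left_apply]
  have h2 : algebraMap K[X] (RatFunc K) (derivative f) = aeval (RatFunc.X : RatFunc K) (derivative f) := by
    rw [← RatFunc.algebraMap_X, Polynomial.aeval_algebraMap_apply, Polynomial.aeval_X_left_apply]
  rw [h1, h2, Derivation.map_aeval, hD, smul_eq_mul, mul_one]

lemma D_iterate_algebraMap (D : Derivation K (RatFunc K) (RatFunc K)) (hD : D RatFunc.X = 1) (n : ℕ) (f : K[X]) :
    (⇑D)^[n] (algebraMap K[X] (RatFunc K) f) = algebraMap K[X] (RatFunc K) (derivative^[n] f) := by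
  induction n generalizing f with
  | zero => rfl
  | succ n ih =>
    rw [Function.iterate_succ_apply, D_algebraMap D hD, ih, Function.iterate_succ_apply]

lemma D_iterate_mul_const (D : Derivation K (RatFunc K) (RatFunc K)) {c : RatFunc K} (hc : D c = 0) (n : ℕ)
    (f : RatFunc K) : (⇑D)^[n] (c * f) = c * (⇑D)^[n] f := by
  induction n generalizing f with
  | zero => rfl
  | succ n ih =>
    rw [Function.iterate_succ_apply, Function.iterate_succ_apply, ← ih, D.leibniz, hc, smul_zero, add_zero,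
      smul_eq_mul]

lemma D_iterate_p {p : ℕ} [hp : Fact p.Prime] [CharP K p] (D : Derivation K (RatFunc K) (RatFunc K))
    (hD : D RatFunc.X = 1) (f : RatFunc K) : (⇑D)^[p] f = 0 := by
  have hpoly : ∀ g : K[X], derivative^[p] g = 0 := by
    intro g
    rw [iterate_derivative_eq_factorial_smul_sum, nsmul_eq_mul,
      (CharP.cast_eq_zero_iff K[X] p _).2 (Nat.dvd_factorial hp.out.pos le_rfl), zero_mul]
  have : CharP (RatFunc K) p := charP_of_injective_algebraMap (algebraMap K (RatFunc K)).injective p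
  set b := algebraMap K[X] (RatFunc K) f.denom with hb
  have hb0 : b ≠ 0 := RatFunc.algebraMap_ne_zero f.denom_ne_zero
  have hc : D (b ^ p)⁻¹ = 0 := by
    rw [Derivation.leibniz_inv, Derivation.leibniz_pow]
    simp
  have hf : f = (b ^ p)⁻¹ * algebraMap K[X] (RatFunc K) (f.num * f.denom ^ (p - 1)) := by
    conv_lhs => rw [← RatFunc.num_div_denom f]
    rw [← hb, map_mul, map_pow, ← hb]
    have h1 : b ^ p = b ^ (p - 1) * b := by
      rw [← pow_succ]
      congr 1
      have := hp.out.pos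
      omega
    rw [h1]
    field_simp
  rw [hf, D_iterate_mul_const D hc, D_iterate_algebraMap D hD, hpoly, map_zero, mul_zero]

lemma D_unique {D D' : Derivation K (RatFunc K) (RatFunc K)} (hD : D RatFunc.X = 1) (hD' : D' RatFunc.X = 1) :
    D = D' := by
  ext f
  have hb0 : algebraMap K[X] (RatFunc K) f.denom ≠ 0 := RatFunc.algebraMap_ne_zero f.denom_ne_zero
  have hf : f * algebraMap K[X] (RatFunc K) f.denom = algebraMap K[X] (RatFunc K) f.num := by
    have h := RatFunc.num_div_denom f
    rw [div_eq_iff hb0] at h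
    exact h.symm
  have h1 := congrArg D hf
  have h2 := congrArg D' hf
  rw [D.leibniz, D_algebraMap D hD, D_algebraMap D hD] at h1
  rw [D'.leibniz, D_algebraMap D' hD', D_algebraMap D' hD'] at h2
  rw [← h2] at h1
  have h3 := add_left_cancel h1
  rw [smul_eq_mul, smul_eq_mul] at h3
  exact mul_left_cancel₀ hb0 h3

/-- The operator `∑ a i ∂ ^ i` over `K(x)` has `e` solutions in `K(x)` that are linearly independent over the
constants. -/
def Sol {n : ℕ} (a : Fin (n + 1) → RatFunc K) (e : ℕ) : Prop :=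
  ∃ D : Derivation K (RatFunc K) (RatFunc K), D RatFunc.X = 1 ∧
    ∃ y : Fin e → RatFunc K, (∀ j, ∑ i : Fin (n + 1), a i * (⇑D)^[(i : ℕ)] (y j) = 0) ∧
      ∀ c : Fin e → RatFunc K, (∀ j, D (c j) = 0) → ∑ j, c j * y j = 0 → ∀ j, c j = 0

/-- `c` is a constant of `K(x)`. -/
def IsConst (c : RatFunc K) : Prop :=
  ∃ D : Derivation K (RatFunc K) (RatFunc K), D RatFunc.X = 1 ∧ D c = 0

/-- A derivation from an additive map. -/
def mkD {F : Type*} [Field F] (D : F →+ F) (hD : ∀ a b, D (a * b) = a • D b + b • D a) : Derivation ℤ F F :=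
  Derivation.mk' D.toIntLinearMap hD

/-- **At most `d p / (e - g)` parameters.** -/
lemma classes {p : ℕ} [hp : Fact p.Prime] [CharP K p] {n d g e : ℕ} (hd : 1 ≤ d) (hg : g < e)
    (B : Fin (d + 1) → Fin (n + 1) → RatFunc K)
    (hreg : ((∃ i, B (Fin.last d) i ≠ 0) ∧ ∀ i : Fin (n + 1), g < i → B (Fin.last d) i = 0) ∨
      ¬ Sol (B (Fin.last d)) (g + 1) ∨
      ∃ c : RatFunc K, IsConst c ∧ ¬ Sol (fun i => ∑ k : Fin (d + 1), c ^ (k : ℕ) * B k i) (g + 1))
    (T : Finset K) (hT : ∀ z ∈ T, Sol (fun i => ∑ k : Fin (d + 1), (RatFunc.C z) ^ (k : ℕ) * B k i) e) :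
    T.card * (e - g) ≤ d * p := by
  classical
  rcases T.eq_empty_or_nonempty with h | ⟨t₀, ht₀⟩
  · simp [h]
  obtain ⟨D, hD, -⟩ := hT t₀ ht₀
  have hchar : CharP (RatFunc K) p := charP_of_injective_algebraMap (algebraMap K (RatFunc K)).injective p
  let D₀ := mkD D.toLinearMap.toAddMonoidHom (fun a b => D.leibniz a b)
  have hC : ∀ z : K, D (RatFunc.C z) = 0 := fun z => by
    rw [← RatFunc.algebraMap_eq_C]
    exact D.map_algebraMap z
  have hSol : ∀ {n : ℕ} (b : Fin (n + 1) → RatFunc K) (m : ℕ), Pool.Agent.V11263.PCu.SolE D₀ b m ↔ Sol b m := by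
    intro n b m
    constructor
    · rintro ⟨y, h1, h2⟩
      exact ⟨D, hD, y, h1, h2⟩
    · rintro ⟨D', hD', y, h1, h2⟩
      obtain rfl : D' = D := D_unique hD' hD
      exact ⟨y, h1, h2⟩
  let ι : K ↪ RatFunc K := ⟨RatFunc.C, RatFunc.C_injective⟩
  have key := Pool.Agent.V11263.PCu.loc3 (p := p) (D := D₀) (x := RatFunc.X) hD
    (D_iterate_p D hD) hd hg B ?_ (T.map ι) ?_
  · rwa [Finset.card_map] at key
  · rcases hreg with h | h | ⟨c, ⟨D', hD', hc⟩, h⟩
    · left
      rintro ⟨y, hy, hind⟩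
      have h3 := Pool.Agent.V11263.PCu.order_le' (D := D.toLinearMap.toAddMonoidHom) (o := g) ?_
        (B (Fin.last d)) h.1 h.2 y hy hind
      · omega
      · intro a b
        have h1 := D.leibniz a b
        rw [smul_eq_mul, smul_eq_mul] at h1
        show D (a * b) = D a * b + a * D b
        rw [h1]
        ring
    · left
      rwa [hSol]
    · right
      obtain rfl : D' = D := D_unique hD' hD
      refine ⟨c, hc, ?_⟩
      rwa [hSol]
  · intro c hc
    obtain ⟨z, hz, rfl⟩ := Finset.mem_map.1 hc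
    refine ⟨hC z, ?_⟩
    rw [hSol]
    exact hT z hz

end Pool.Agent.H446.AP
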