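import Pool.Agent.H446.AP.Det

/-!
# Divisibility of resultants by powers of `p`
-/

set_option autoImplicit false

namespace Pool.Agent.H446.AP

open Matrix Polynomial

/-- `Q P₁ = P Q₁` modulo `p` with `P₁`, `Q₁` of small degree makes the resultant divisible by a power of `p`. -/
lemma pow_dvd_resultant {p : ℕ} [hp : Fact p.Prime] (P Q : ℤ[X]) (m n k : ℕ) (hP : P.natDegree ≤ m)
    (hQ : Q.natDegree ≤ n) (G P₁ Q₁ : (ZMod p)[X]) (h1 : P.map (Int.castRingHom (ZMod p)) = G * P₁)
    (h2 : Q.map (Int.castRingHom (ZMod p)) = G * Q₁) (hne : P₁ ≠ 0 ∨ Q₁ ≠ 0)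
    (hk1 : P₁ = 0 ∨ P₁.natDegree + k ≤ m) (hk2 : Q₁ = 0 ∨ Q₁.natDegree + k ≤ n) :
    (p : ℤ) ^ k ∣ resultant P Q m n := by
  classical
  set f := P.map (Int.castRingHom (ZMod p)) with hf
  set g := Q.map (Int.castRingHom (ZMod p)) with hg
  have hfd : f.natDegree ≤ m := natDegree_map_le.trans hP
  have hgd : g.natDegree ≤ n := natDegree_map_le.trans hQ
  let b₁ := ((degreeLT.basis (ZMod p) m).prod (degreeLT.basis (ZMod p) n)).reindex finSumFinEquiv
  let b₂ := degreeLT.basis (ZMod p) (m + n)
  have hm1 : ∀ j : Fin k, -(X ^ (j : ℕ) * P₁) ∈ degreeLT (ZMod p) m := by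
    intro j
    rw [mem_degreeLT]
    rcases hk1 with h | h
    · rw [h]
      simp
    · rw [degree_neg]
      by_cases h0 : P₁ = 0
      · rw [h0]
        simp
      refine lt_of_le_of_lt degree_le_natDegree ?_
      rw [natDegree_X_pow_mul _ h0]
      have := j.2
      exact_mod_cast (by omega : P₁.natDegree + (j : ℕ) < m)
  have hm2 : ∀ j : Fin k, X ^ (j : ℕ) * Q₁ ∈ degreeLT (ZMod p) n := by
    intro j
    rw [mem_degreeLT]
    rcases hk2 with h | h
    · rw [h]
      simp
    · by_cases h0 : Q₁ = 0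
      · rw [h0]
        simp
      refine lt_of_le_of_lt degree_le_natDegree ?_
      rw [natDegree_X_pow_mul _ h0]
      have := j.2
      exact_mod_cast (by omega : Q₁.natDegree + (j : ℕ) < n)
  let x : Fin k → degreeLT (ZMod p) m × degreeLT (ZMod p) n := fun j => (⟨_, hm1 j⟩, ⟨_, hm2 j⟩)
  have hx : LinearIndependent (ZMod p) x := by
    rw [Fintype.linearIndependent_iff]
    intro c hc
    have e1 : (∑ j : Fin k, C (c j) * X ^ (j : ℕ)) * P₁ = 0 := by
      have h3 := congrArg (fun z : degreeLT (ZMod p) m × degreeLT (ZMod p) n => (z.1 : (ZMod p)[X])) hc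
      simp only [x, Prod.fst_sum, Prod.smul_fst, Submodule.coe_sum, Submodule.coe_smul, Prod.fst_zero,
        Submodule.coe_zero, smul_neg, Finset.sum_neg_distrib, neg_eq_zero] at h3
      rw [Finset.sum_mul, ← h3]
      refine Finset.sum_congr rfl fun j _ => ?_
      rw [smul_eq_C_mul, mul_assoc]
    have e2 : (∑ j : Fin k, C (c j) * X ^ (j : ℕ)) * Q₁ = 0 := by
      have h3 := congrArg (fun z : degreeLT (ZMod p) m × degreeLT (ZMod p) n => (z.2 : (ZMod p)[X])) hc
      simp only [x, Prod.snd_sum, Prod.smul_snd, Submodule.coe_sum, Submodule.coe_smul, Prod.snd_zero,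
        Submodule.coe_zero] at h3
      rw [Finset.sum_mul, ← h3]
      refine Finset.sum_congr rfl fun j _ => ?_
      rw [smul_eq_C_mul, mul_assoc]
    have e3 : ∑ j : Fin k, C (c j) * (X : (ZMod p)[X]) ^ (j : ℕ) = 0 := by
      rcases hne with h | h
      · exact (mul_eq_zero.1 e1).resolve_right h
      · exact (mul_eq_zero.1 e2).resolve_right h
    intro i
    have h4 := congrArg (fun q => q.coeff (i : ℕ)) e3
    simp only [finsetSum_coeff, coeff_C_mul, coeff_X_pow, coeff_zero] at h4
    rw [Finset.sum_eq_single i] at h4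
    · simpa using h4
    · intro j _ hji
      rw [if_neg, mul_zero]
      exact fun h => hji (Fin.ext h.symm)
    · intro h
      exact absurd (Finset.mem_univ i) h
  have hker : ∀ j, sylvesterMap f g hfd hgd (x j) = 0 := by
    intro j
    refine Subtype.ext ?_
    show f * (X ^ (j : ℕ) * Q₁) + g * (-(X ^ (j : ℕ) * P₁)) = 0
    rw [h1, h2]
    ring
  have h5 : (p : ℤ) ^ k ∣ ((sylvester P Q m n)ᵀ).det := by
    refine pow_dvd_det _ (fun j => b₁.equivFun (x j)) ?_ ?_
    · exact hx.map' b₁.equivFun.toLinearMap (LinearEquiv.ker _)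
    · intro j
      have h6 : ((sylvester P Q m n)ᵀ).map (Int.castRingHom (ZMod p)) = (sylvester f g m n)ᵀ := by
        rw [hf, hg, sylvester_map_map]
        rfl
      rw [h6, vecMul_transpose]
      have h7 := LinearMap.toMatrix_mulVec_repr b₁ b₂ (sylvesterMap f g hfd hgd) (x j)
      rw [toMatrix_sylvesterMap', hker j, map_zero] at h7
      exact h7
  rwa [Matrix.det_transpose] at h5

/-- If `P` and `Q` have the common roots `Z` in a field of characteristic `p`, then `p ^ #Z` divides the resultant. -/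
lemma pow_card_dvd_resultant {p : ℕ} [hp : Fact p.Prime] {K : Type*} [Field K] [Algebra (ZMod p) K]
    (P Q : ℤ[X]) (hne : P.map (Int.castRingHom (ZMod p)) ≠ 0 ∨ Q.map (Int.castRingHom (ZMod p)) ≠ 0)
    (Z : Finset K) (hZ : ∀ z ∈ Z, aeval z P = 0 ∧ aeval z Q = 0) :
    (p : ℤ) ^ Z.card ∣ resultant P Q P.natDegree Q.natDegree := by
  classical
  set f := P.map (Int.castRingHom (ZMod p)) with hf
  set g := Q.map (Int.castRingHom (ZMod p)) with hg
  let G := EuclideanDomain.gcd f g
  have hG : G ≠ 0 := by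
    intro h
    rw [EuclideanDomain.gcd_eq_zero_iff] at h
    rcases hne with h' | h'
    · exact h' h.1
    · exact h' h.2
  obtain ⟨P₁, hP₁⟩ : G ∣ f := EuclideanDomain.gcd_dvd_left f g
  obtain ⟨Q₁, hQ₁⟩ : G ∣ g := EuclideanDomain.gcd_dvd_right f g
  have hroot : ∀ (R : ℤ[X]) (z : K), aeval z (R.map (Int.castRingHom (ZMod p))) = aeval z R := by
    intro R z
    rw [aeval_def, aeval_def, eval₂_map]
    congr 1
    exact RingHom.ext_int _ _
  have hZG : Z.card ≤ G.natDegree := by
    have h1 : Z ⊆ (G.map (algebraMap (ZMod p) K)).roots.toFinset := by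
      intro z hz
      rw [Multiset.mem_toFinset, mem_roots (by rwa [Ne, Polynomial.map_eq_zero])]
      rw [IsRoot.def, eval_map, ← aeval_def]
      obtain ⟨a, b, hab⟩ : ∃ a b, G = f * a + g * b := ⟨_, _, EuclideanDomain.gcd_eq_gcd_ab f g⟩
      rw [hab, map_add, map_mul, map_mul, hf, hg, hroot, hroot, (hZ z hz).1, (hZ z hz).2]
      simp
    calc Z.card ≤ _ := Finset.card_le_card h1
      _ ≤ _ := Multiset.toFinset_card_le _
      _ ≤ _ := card_roots' _
      _ = G.natDegree := natDegree_map _
  refine pow_dvd_resultant P Q _ _ _ le_rfl le_rfl G P₁ Q₁ hP₁ hQ₁ ?_ ?_ ?_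
  · by_contra hcon
    push Not at hcon
    rw [hcon.1, mul_zero] at hP₁
    rw [hcon.2, mul_zero] at hQ₁
    rcases hne with h' | h'
    · exact h' hP₁
    · exact h' hQ₁
  · by_cases h0 : P₁ = 0
    · exact Or.inl h0
    · right
      have h1 : f.natDegree ≤ P.natDegree := natDegree_map_le
      rw [hP₁, natDegree_mul hG h0] at h1
      omega
  · by_cases h0 : Q₁ = 0
    · exact Or.inl h0
    · right
      have h1 : g.natDegree ≤ Q.natDegree := natDegree_map_le
      rw [hQ₁, natDegree_mul hG h0] at h1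
      omega

/-- If `P` has only few roots in an algebraically closed field of characteristic `p`, then the resultant of `P` and its
derivative is divisible by a high power of `p`. -/
lemma pow_dvd_resultant_deriv {p : ℕ} [hp : Fact p.Prime] {K : Type*} [Field K] [Algebra (ZMod p) K]
    [IsAlgClosed K] (P : ℤ[X]) (hne : P.map (Int.castRingHom (ZMod p)) ≠ 0)
    (Z : Finset K) (hZ : ∀ z : K, aeval z P = 0 → z ∈ Z) :
    (p : ℤ) ^ (P.natDegree - Z.card) ∣ resultant P (derivative P) P.natDegree (P.natDegree - 1) := by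
  classical
  set f := P.map (Int.castRingHom (ZMod p)) with hf
  have hroot : ∀ (R : ℤ[X]) (z : K), aeval z (R.map (Int.castRingHom (ZMod p))) = aeval z R := by
    intro R z
    rw [aeval_def, aeval_def, eval₂_map]
    congr 1
    exact RingHom.ext_int _ _
  let R₁ := UniqueFactorizationMonoid.radical f
  let G := EuclideanDomain.divRadical f
  have hGR : f = G * R₁ := (EuclideanDomain.divRadical_mul_radical).symm
  have hG : G ≠ 0 := EuclideanDomain.divRadical_ne_zero hne
  have hR : R₁ ≠ 0 := UniqueFactorizationMonoid.radical_ne_zero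
  obtain ⟨Q₁, hQ₁⟩ : G ∣ derivative f := divRadical_dvd_derivative f
  have hsep : R₁.Separable := PerfectField.separable_iff_squarefree.2 UniqueFactorizationMonoid.squarefree_radical
  have hcard : R₁.natDegree ≤ Z.card := by
    have h1 := card_rootSet_eq_natDegree (K := K) hsep (IsAlgClosed.splits _)
    rw [← h1, ← Set.toFinset_card]
    refine Finset.card_le_card ?_
    intro z hz
    rw [Set.mem_toFinset, mem_rootSet] at hz
    refine hZ z ?_
    rw [← hroot, ← hf, hGR, map_mul, hz.2, mul_zero]
  have hdf : (derivative P).map (Int.castRingHom (ZMod p)) = G * Q₁ := by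
    rw [← derivative_map, ← hf, hQ₁]
  have hfd : f.natDegree ≤ P.natDegree := natDegree_map_le
  have hfd' : f.natDegree = G.natDegree + R₁.natDegree := by
    conv_lhs => rw [hGR]
    exact natDegree_mul hG hR
  refine pow_dvd_resultant P (derivative P) _ _ _ le_rfl (natDegree_derivative_le P) G R₁ Q₁ hGR hdf
    (Or.inl hR) ?_ ?_
  · right
    omega
  · by_cases h0 : Q₁ = 0
    · exact Or.inl h0
    · right
      have h3 : f.natDegree ≠ 0 := by
        intro h
        have h4 := derivative_of_natDegree_zero h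
        rw [hQ₁] at h4
        exact (mul_ne_zero hG h0) h4
      have h1 := natDegree_derivative_lt h3
      rw [hQ₁, natDegree_mul hG h0] at h1
      omega

end Pool.Agent.H446.AP
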