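import Mathlib

/-!
# Many rational numbers of bounded height
-/

set_option autoImplicit false

namespace Pool.Agent.H446.AP

open Polynomial Finset

lemma sum_inv_sq (N : ℕ) (hN : 2 ≤ N) : ∑ k ∈ Icc 2 N, (1 : ℝ) / (k : ℝ) ^ 2 ≤ 3 / 4 - 1 / N := by
  induction N, hN using Nat.le_induction with
  | base => norm_num
  | succ N hN ih =>
    rw [Finset.sum_Icc_succ_top (by omega : 2 ≤ N + 1)]
    have hN' : (2 : ℝ) ≤ N := by exact_mod_cast hN
    have h1 : (1 : ℝ) / ((N + 1 : ℕ) : ℝ) ^ 2 ≤ 1 / N - 1 / ((N + 1 : ℕ) : ℝ) := by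
      push_cast
      rw [div_sub_div _ _ (by positivity) (by positivity), div_le_div_iff₀ (by positivity) (by positivity)]
      nlinarith
    linarith

/-- At least a quarter of the pairs are coprime. -/
lemma coprime_pairs (N : ℕ) (hN : 1 ≤ N) : (N : ℝ) ^ 2 / 4 ≤
    (((Icc 1 N) ×ˢ (Icc 1 N)).filter fun x : ℕ × ℕ => Nat.Coprime x.1 x.2).card := by
  classical
  rcases Nat.lt_or_ge N 2 with h | h
  · obtain rfl : N = 1 := by omega
    have : (((Icc 1 1) ×ˢ (Icc 1 1)).filter fun x : ℕ × ℕ => Nat.Coprime x.1 x.2).card = 1 := by decide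
    rw [this]
    norm_num
  set A := (Icc 1 N) ×ˢ (Icc 1 N) with hA
  have h1 : A.filter (fun x : ℕ × ℕ => ¬ Nat.Coprime x.1 x.2) ⊆
      (Icc 2 N).biUnion fun k => ((Icc 1 N).filter fun a => k ∣ a) ×ˢ ((Icc 1 N).filter fun a => k ∣ a) := by
    intro x hx
    rw [mem_filter, hA, mem_product, mem_Icc, mem_Icc] at hx
    rw [mem_biUnion]
    refine ⟨Nat.gcd x.1 x.2, ?_, ?_⟩
    · rw [mem_Icc]
      have h2 : Nat.gcd x.1 x.2 ≤ x.1 := Nat.gcd_le_left _ (by omega)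
      have h3 : 0 < Nat.gcd x.1 x.2 := Nat.gcd_pos_of_pos_left _ (by omega)
      have h4 : Nat.gcd x.1 x.2 ≠ 1 := hx.2
      omega
    · rw [mem_product, mem_filter, mem_filter, mem_Icc, mem_Icc]
      exact ⟨⟨hx.1.1, Nat.gcd_dvd_left _ _⟩, ⟨hx.1.2, Nat.gcd_dvd_right _ _⟩⟩
  have h2 : ((A.filter (fun x : ℕ × ℕ => ¬ Nat.Coprime x.1 x.2)).card : ℝ) ≤
      ∑ k ∈ Icc 2 N, (N : ℝ) ^ 2 * (1 / (k : ℝ) ^ 2) := by
    have h3 : (A.filter (fun x : ℕ × ℕ => ¬ Nat.Coprime x.1 x.2)).card ≤ ∑ k ∈ Icc 2 N, (N / k) ^ 2 := by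
      refine (Finset.card_le_card h1).trans (Finset.card_biUnion_le.trans (Finset.sum_le_sum fun k hk => ?_))
      have h4 : ((Icc 1 N).filter fun a => k ∣ a).card = N / k := by
        rw [← Nat.Ioc_filter_dvd_card_eq_div N k]
        rfl
      rw [Finset.card_product, h4, sq]
    have h5 : ((A.filter (fun x : ℕ × ℕ => ¬ Nat.Coprime x.1 x.2)).card : ℝ) ≤
        ((∑ k ∈ Icc 2 N, (N / k) ^ 2 : ℕ) : ℝ) := by exact_mod_cast h3
    refine h5.trans ?_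
    push_cast
    refine Finset.sum_le_sum fun k hk => ?_
    rw [mem_Icc] at hk
    have h6 : ((N / k : ℕ) : ℝ) ≤ N / k := Nat.cast_div_le
    calc ((N / k : ℕ) : ℝ) ^ 2 ≤ ((N : ℝ) / k) ^ 2 := by gcongr
      _ = _ := by rw [div_pow]; ring
  have h3 : ((A.filter fun x : ℕ × ℕ => Nat.Coprime x.1 x.2).card : ℝ) +
      (A.filter (fun x : ℕ × ℕ => ¬ Nat.Coprime x.1 x.2)).card = (N : ℝ) ^ 2 := by
    have h4 := Finset.card_filter_add_card_filter_not (s := A) (fun x : ℕ × ℕ => Nat.Coprime x.1 x.2)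
    have h5 : A.card = N ^ 2 := by
      rw [hA, Finset.card_product, Nat.card_Icc]
      simp [sq]
    rw [h5] at h4
    exact_mod_cast h4
  rw [← Finset.mul_sum] at h2
  have h4 := sum_inv_sq N h
  have h5 : (0 : ℝ) ≤ 1 / N := by positivity
  have h6 : (N : ℝ) ^ 2 * ∑ k ∈ Icc 2 N, 1 / (k : ℝ) ^ 2 ≤ (N : ℝ) ^ 2 * (3 / 4) := by
    gcongr
    linarith
  linarith

end Pool.Agent.H446.AP
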